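import Pool.Agent.Y723.Z8.Stm
import Pool.Agent.H474R2.GE.FA
import Pool.Agent.Helper256.KM.Mertens

/-!
# Project Z8, job Z8-CHR: the sums over the primes of the real characters modulo 8
-/

set_option autoImplicit false

namespace Pool.Agent.Y903.Z8

open Finset Polynomial
open Pool.Agent.W262.RK (PS Jr)
open Pool.Agent.H474R2.PG (rho Sg PR)

/-- the number of the square roots of `κ` modulo `p` -/
theorem rho_eq (κ : ℤ) (p : ℕ) (hp : p.Prime) (hp2 : p ≠ 2) :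
    (rho (X ^ 2 - C κ : ℤ[X]) p : ℝ) = 1 + Jr κ p := by
  haveI : Fact p.Prime := ⟨hp⟩
  have h1 : (rho (X ^ 2 - C κ : ℤ[X]) p : ℤ) = jacobiSym κ p + 1 := by
    rw [← jacobiSym.legendreSym.to_jacobiSym, ← legendreSym.card_sqrts p hp2 κ]
    unfold rho
    norm_cast
    refine Finset.card_bij (fun a _ => (a : ZMod p)) ?_ ?_ ?_
    · intro a ha
      rw [Finset.mem_filter] at ha
      rw [Set.mem_toFinset, Set.mem_setOf_eq]
      have h2 := ha.2
      rw [eval_sub, eval_pow, eval_X, eval_C] at h2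
      have h3 := (ZMod.intCast_zmod_eq_zero_iff_dvd _ p).mpr h2
      push_cast at h3
      exact sub_eq_zero.mp h3
    · intro a ha b hb hab
      rw [Finset.mem_filter, Finset.mem_range] at ha hb
      have h2 := congrArg ZMod.val hab
      rwa [ZMod.val_natCast, ZMod.val_natCast, Nat.mod_eq_of_lt ha.1, Nat.mod_eq_of_lt hb.1] at h2
    · intro x hx
      rw [Set.mem_toFinset, Set.mem_setOf_eq] at hx
      refine ⟨x.val, ?_, ZMod.natCast_zmod_val x⟩
      rw [Finset.mem_filter, Finset.mem_range]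
      refine ⟨ZMod.val_lt x, ?_⟩
      rw [eval_sub, eval_pow, eval_X, eval_C]
      apply (ZMod.intCast_zmod_eq_zero_iff_dvd _ p).mp
      push_cast
      rw [ZMod.natCast_zmod_val, hx, sub_self]
  have h2 : ((rho (X ^ 2 - C κ : ℤ[X]) p : ℤ) : ℝ) = ((jacobiSym κ p + 1 : ℤ) : ℝ) := by
    rw [h1]
  unfold Jr
  push_cast at h2
  linarith

theorem irr (κ : ℤ) (hκ : κ = -1 ∨ κ = 2 ∨ κ = -2) : Irreducible (X ^ 2 - C κ : ℤ[X]) := by
  have hm : (X ^ 2 - C κ : ℤ[X]).Monic := monic_X_pow_sub_C κ two_ne_zero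
  have hd : (X ^ 2 - C κ : ℤ[X]).natDegree = 2 := natDegree_X_pow_sub_C
  rw [hm.irreducible_iff_roots_eq_zero_of_degree_le_three (by omega) (by omega)]
  apply Multiset.eq_zero_of_forall_notMem
  intro x hx
  have h1 := (mem_roots hm.ne_zero).mp hx
  rw [IsRoot.def, eval_sub, eval_pow, eval_X, eval_C] at h1
  rcases hκ with rfl | rfl | rfl
  · nlinarith [sq_nonneg x]
  · have h2 : x < 2 := by nlinarith
    have h3 : -2 < x := by nlinarith
    interval_cases x <;> omega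
  · nlinarith [sq_nonneg x]

/-- **CHR** -/
theorem chr : Pool.Agent.Y723.Z8.S_CHR := by
  intro κ hκ z
  have hd : (X ^ 2 - C κ : ℤ[X]).natDegree = 2 := natDegree_X_pow_sub_C
  obtain ⟨C1, hC10, hC1⟩ := Pool.Agent.H474R2.GE.mertens_rho (X ^ 2 - C κ : ℤ[X]) (irr κ hκ)
    (by omega)
  obtain ⟨C2, hC2⟩ := Pool.Agent.Helper256.KM.mertens_inv
  obtain ⟨g, hg⟩ : ∃ g : ℕ → ℝ, ∀ p, g p = ((rho (X ^ 2 - C κ : ℤ[X]) p : ℝ) - 1) / (p : ℝ) :=
    ⟨_, fun _ => rfl⟩
  obtain ⟨G, hG⟩ : ∃ G : ℕ → ℝ, ∀ N, G N = ∑ p ∈ (Icc 1 N).filter Nat.Prime, g p :=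
    ⟨_, fun _ => rfl⟩
  have hG3 : ∀ N, 3 ≤ N → |G N| ≤ C1 + C2 := by
    intro N hN
    have h1 := hC1 (N : ℝ) (by exact_mod_cast hN)
    have h2 := hC2 N hN
    have h3 : G N = Sg (rho (X ^ 2 - C κ : ℤ[X])) (N : ℝ) -
        ∑ p ∈ (Icc 1 N).filter Nat.Prime, (1 : ℝ) / p := by
      rw [hG]
      unfold Sg PR
      rw [Nat.floor_natCast, ← Finset.sum_sub_distrib]
      refine Finset.sum_congr rfl fun p _ => ?_
      rw [hg]
      ring
    rw [h3]
    rw [abs_le] at h1 h2 ⊢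
    constructor <;> linarith
  have hC20 : 0 ≤ C2 := (abs_nonneg _).trans (hC2 3 le_rfl)
  have hGb : ∀ N, |G N| ≤ C1 + C2 + |G 0| + |G 1| + |G 2| := by
    intro N
    have a0 := abs_nonneg (G 0)
    have a1 := abs_nonneg (G 1)
    have a2 := abs_nonneg (G 2)
    rcases Nat.lt_or_ge N 3 with hN | hN
    · have : N = 0 ∨ N = 1 ∨ N = 2 := by omega
      rcases this with rfl | rfl | rfl <;> linarith
    · have := hG3 N hN
      linarith
  refine ⟨2 * (C1 + C2 + |G 0| + |G 1| + |G 2|) + |Jr κ 2 / ((2 : ℕ) : ℝ) - g 2|, ?_⟩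
  intro y hy
  have hsplit : ∑ p ∈ PS z y, g p = G y - G z := by
    have h1 : (Icc 1 y).filter Nat.Prime = (Icc 1 z).filter Nat.Prime ∪ PS z y := by
      ext p
      simp only [PS, mem_union, mem_filter, mem_Icc, mem_Ioc]
      constructor
      · rintro ⟨⟨h1, h2⟩, h3⟩
        rcases Nat.lt_or_ge z p with h4 | h4
        · exact Or.inr ⟨⟨h4, h2⟩, h3⟩
        · exact Or.inl ⟨⟨h1, h4⟩, h3⟩
      · rintro (⟨⟨h1, h2⟩, h3⟩ | ⟨⟨h1, h2⟩, h3⟩)
        · exact ⟨⟨h1, by omega⟩, h3⟩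
        · exact ⟨⟨by omega, h2⟩, h3⟩
    have h2 : Disjoint ((Icc 1 z).filter Nat.Prime) (PS z y) := by
      rw [Finset.disjoint_left]
      intro p h1 h2
      simp only [PS, mem_filter, mem_Icc, mem_Ioc] at h1 h2
      omega
    have h3 : G y = G z + ∑ p ∈ PS z y, g p := by
      rw [hG y, hG z, h1, Finset.sum_union h2]
    linarith
  have hdiff : ∑ p ∈ PS z y, Jr κ p / (p : ℝ) = ∑ p ∈ PS z y, g p +
      ∑ p ∈ PS z y, (if p = 2 then (Jr κ 2 / ((2 : ℕ) : ℝ) - g 2) else 0) := by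
    rw [← Finset.sum_add_distrib]
    refine Finset.sum_congr rfl fun p hp => ?_
    split_ifs with h2
    · subst h2
      ring
    · have hpp : p.Prime := by
        simp only [PS, mem_filter] at hp
        exact hp.2
      rw [hg, rho_eq κ p hpp h2]
      ring
  have hlast : |∑ p ∈ PS z y, (if p = 2 then (Jr κ 2 / ((2 : ℕ) : ℝ) - g 2) else 0)| ≤
      |Jr κ 2 / ((2 : ℕ) : ℝ) - g 2| := by
    rw [Finset.sum_ite_eq']
    split_ifs
    · exact le_rfl
    · rw [abs_zero]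
      exact abs_nonneg _
  rw [hdiff, hsplit]
  have h1 := hGb y
  have h2 := hGb z
  have h3 := abs_add_le (G y - G z) (∑ p ∈ PS z y, (if p = 2 then (Jr κ 2 / ((2 : ℕ) : ℝ) - g 2) else 0))
  have h4 := abs_sub (G y) (G z)
  linarith

end Pool.Agent.Y903.Z8
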